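import Pool.Agent.helper83.LE.SpecB

set_option autoImplicit false

namespace Pool.Agent.LE

open Pool.Agent.helper58.DC Pool.Agent.DI Pool.Agent.GR Pool.Agent.OB Pool.Agent.DR Pool.Agent.FI Pool.Agent.FI3 Pool.Agent.FI4 Pool.Agent.FI4C

theorem CS2 (hCEX : CEX_stmt) (hCBL : CBL_stmt) (hCCL : CCL_stmt) (hCN2 : CN2_stmt) (hFBC : FBC_stmt)
    (hIF : IF_stmt) : CS2_stmt := by
  intro p M hM G _ _ D x θ χ hlo m hm y hy hy1
  rw [hCEX p M hM G θ m hm.cop y hy]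
  have hKfin : (IrrOn (Cz (⊤ : Subgroup G) y)).Finite := (hIF G (Cz (⊤ : Subgroup G) y)).1
  have hTfin : (BlC M (⊤ : Subgroup G) θ y).Finite := hKfin.subset fun ψ h => h.1
  have hBfin : ∀ η : G → ℂ, (Bl M (Cz (⊤ : Subgroup G) y) η).Finite := fun η => hKfin.subset fun ψ h => h.1
  have hT : BC M (Cz (⊤ : Subgroup G) y) (BlC M (⊤ : Subgroup G) θ y) := (hFBC p M hM G (⊤ : Subgroup G) θ y).2.1
  have hsub : ∀ η ∈ BlC M (⊤ : Subgroup G) θ y, ∀ η' ∈ Bl M (Cz (⊤ : Subgroup G) y) η,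
      η' ∈ BlC M (⊤ : Subgroup G) θ y := by
    intro η hη η' hη'
    exact hT.closed η hη η' hη'.1 hη'.2.symm
  have heq : ∀ η : G → ℂ, ∀ η' ∈ Bl M (Cz (⊤ : Subgroup G) y) η,
      Bl M (Cz (⊤ : Subgroup G) y) η' = Bl M (Cz (⊤ : Subgroup G) y) η := by
    intro η η' hη'
    ext ψ
    constructor
    · intro h
      exact ⟨h.1, h.2.trans hη'.2⟩
    · intro h
      exact ⟨h.1, h.2.trans hη'.2.symm⟩
  rw [finsum_mem_eq_finite_toFinset_sum _ hTfin]
  refine hCCL (G → ℂ) hTfin.toFinset (fun η => (hBfin η).toFinset) _ ?_ ?_ ?_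
  · intro η hη
    rw [Set.Finite.mem_toFinset] at hη
    constructor
    · rw [Set.Finite.mem_toFinset]
      exact ⟨hη.1, SB.refl _ _⟩
    · intro η' hη'
      rw [Set.Finite.mem_toFinset] at hη' ⊢
      exact hsub η hη η' hη'
  · intro η hη η' hη'
    rw [Set.Finite.mem_toFinset] at hη'
    apply Finset.ext
    intro ψ
    rw [Set.Finite.mem_toFinset, Set.Finite.mem_toFinset, heq η η' hη']
  · intro η hη
    rw [Set.Finite.mem_toFinset] at hη
    rw [← finsum_mem_eq_finite_toFinset_sum _ (hBfin η)]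
    have hS : BC M (Cz (⊤ : Subgroup G) y) (Bl M (Cz (⊤ : Subgroup G) y) η) :=
      (hFBC p M hM G (⊤ : Subgroup G) η y).2.2.1
    have hcond : ∀ w : G, w * y * w⁻¹ = y ^ m → ∀ ψ ∈ Bl M (Cz (⊤ : Subgroup G) y) η,
        cjF w ψ ∉ Bl M (Cz (⊤ : Subgroup G) y) η := by
      intro w hw ψ hψ hcon
      exact hCN2 p M hM G D x θ χ hlo m hm y hy hy1 ψ hψ.1 (hsub η hη ψ hψ).2 w hw (hcon.2.trans hψ.2.symm)
    have h0 := hCBL p M hM G m hm.cop y hy (Bl M (Cz (⊤ : Subgroup G) y) η) hS hcond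
    rw [← h0]
    refine finsum_mem_congr rfl ?_
    intro η' hη'
    rw [heq η η' hη']

end Pool.Agent.LE
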